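import Mathlib
import Pool.Agent.H97R2.BP.Defs
import Pool.Agent.H97R2.BP.Defs2

set_option autoImplicit false

open scoped ComplexOrder InnerProductSpace ComplexConjugate TensorProduct
open Finset H759R2.Kad H710R2.DP

noncomputable section

namespace H97R2.BP

namespace ZZ697

open NormedSpace Filter Topology

variable {K : Type} [NormedAddCommGroup K] [InnerProductSpace ℂ K] [CompleteSpace K]

local instance ratAlg : NormedAlgebra ℚ (K →L[ℂ] K) := NormedAlgebra.restrictScalars ℚ ℂ _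

/-- `exp (z Λ)` -/
def E (Λ : K →L[ℂ] K) (z : ℂ) : K →L[ℂ] K := NormedSpace.exp (z • Λ)

theorem E_zero (Λ : K →L[ℂ] K) : E Λ 0 = 1 := by
  unfold E; rw [zero_smul, NormedSpace.exp_zero]

theorem E_one (Λ : K →L[ℂ] K) : E Λ 1 = NormedSpace.exp Λ := by
  unfold E; rw [one_smul]

theorem E_add (Λ : K →L[ℂ] K) (z w : ℂ) : E Λ (z + w) = E Λ z * E Λ w := by
  unfold E
  rw [add_smul]
  exact NormedSpace.exp_add_of_commute (((Commute.refl Λ).smul_left z).smul_right w)

theorem E_commute (Λ B : K →L[ℂ] K) (h : Commute Λ B) (z : ℂ) : Commute (E Λ z) B := by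
  unfold E
  exact (h.smul_left z).exp_left

theorem E_diff (Λ : K →L[ℂ] K) : Differentiable ℂ (E Λ) := by
  unfold E
  exact fun z => (hasDerivAt_exp_smul_const Λ z).differentiableAt

theorem sa_star (B : K →L[ℂ] K) (h : ∀ ξ η, ⟪B ξ, η⟫_ℂ = ⟪ξ, B η⟫_ℂ) : star B = B := by
  rw [ContinuousLinearMap.star_eq_adjoint]
  symm
  rw [ContinuousLinearMap.eq_adjoint_iff]
  exact h

theorem E_star (Λ : K →L[ℂ] K) (h : star Λ = Λ) (z : ℂ) : star (E Λ z) = E Λ (conj z) := by
  unfold E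
  rw [NormedSpace.star_exp, star_smul, h]
  rfl

theorem E_norm (Λ : K →L[ℂ] K) (h : star Λ = Λ) (t : ℝ) (ζ : K) :
    ‖E Λ (t * Complex.I) ζ‖ = ‖ζ‖ := by
  have h1 : star (E Λ (t * Complex.I)) * E Λ (t * Complex.I) = 1 := by
    rw [E_star Λ h, ← E_add]
    have : conj ((t : ℂ) * Complex.I) + t * Complex.I = 0 := by
      rw [map_mul, Complex.conj_ofReal, Complex.conj_I]; ring
    rw [this, E_zero]
  have h2 : ⟪E Λ (t * Complex.I) ζ, E Λ (t * Complex.I) ζ⟫_ℂ = ⟪ζ, ζ⟫_ℂ := by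
    rw [← ContinuousLinearMap.adjoint_inner_right, ← ContinuousLinearMap.star_eq_adjoint,
      ← mul_apply_eq_comp, h1, one_apply_eq_self]
  rw [inner_self_eq_norm_sq_to_K, inner_self_eq_norm_sq_to_K] at h2
  have h3 : ‖E Λ (t * Complex.I) ζ‖ ^ 2 = ‖ζ‖ ^ 2 := by exact_mod_cast h2
  exact (sq_eq_sq₀ (norm_nonneg _) (norm_nonneg _)).mp h3

theorem exp_mul_eq (A B g : K →L[ℂ] K) (h : ∀ k : ℕ, A ^ k * g = B ^ k * g) :
    NormedSpace.exp A * g = NormedSpace.exp B * g := by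
  have h1 := (NormedSpace.exp_series_hasSum_exp' (𝕂 := ℂ) A).mul_right g
  have h2 := (NormedSpace.exp_series_hasSum_exp' (𝕂 := ℂ) B).mul_right g
  have : (fun n : ℕ => ((n.factorial : ℂ)⁻¹ • A ^ n) * g) =
      fun n : ℕ => ((n.factorial : ℂ)⁻¹ • B ^ n) * g := by
    funext n
    rw [smul_mul_assoc, smul_mul_assoc, h]
  rw [this] at h1
  exact h1.unique h2

theorem E_mul_eq (Λ Λ' g : K →L[ℂ] K) (hc : Commute Λ g) (h : Λ' * g = Λ * g) (z : ℂ) :
    E Λ' z * g = E Λ z * g := by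
  unfold E
  apply exp_mul_eq
  intro k
  have hk : ∀ k : ℕ, Λ' ^ k * g = Λ ^ k * g := by
    intro k
    induction k with
    | zero => simp
    | succ k ih =>
      rw [pow_succ', mul_assoc, ih, ← (hc.pow_left k).eq.symm, ← mul_assoc, h, mul_assoc,
        (hc.pow_left k).eq.symm, ← mul_assoc, ← pow_succ']
  rw [smul_pow, smul_pow, smul_mul_assoc, smul_mul_assoc, hk]

end ZZ697

open ZZ697 Filter Topology in
theorem bp_grp (h : Z_cut) : Z_grp := by
  intro K _ _ _ R T hRT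
  obtain ⟨Λ, g, hsa, hcom, hcg, hst, hexp, hexp', hlim⟩ := h K R T hRT
  -- algebraic form of the hypotheses
  have hΛs : ∀ n, star (Λ n) = Λ n := fun n => sa_star _ (hsa n).1
  have hΛR : ∀ n, Commute (Λ n) R := fun n => ContinuousLinearMap.ext fun ξ => (hcom n ξ).1
  have hgR : ∀ n, Commute (g n) R := fun n => ContinuousLinearMap.ext fun ξ => (hcom n ξ).2.1
  have hΛT : ∀ n, Commute (Λ n) T := fun n => ContinuousLinearMap.ext fun ξ => (hcom n ξ).2.2.1
  have hgT : ∀ n, Commute (g n) T := fun n => ContinuousLinearMap.ext fun ξ => (hcom n ξ).2.2.2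
  have hΛg : ∀ n m, Commute (Λ n) (g m) := fun n m => ContinuousLinearMap.ext fun ξ => hcg n m ξ
  have hstab : ∀ n m, n ≤ m → ∀ z, E (Λ m) z * g n = E (Λ n) z * g n := fun n m hnm z =>
    E_mul_eq (Λ n) (Λ m) (g n) (hΛg n n) (ContinuousLinearMap.ext fun ξ => hst n m hnm ξ) z
  have hstab' : ∀ n m, n ≤ m → ∀ z ξ, E (Λ m) z (g n ξ) = E (Λ n) z (g n ξ) := fun n m hnm z ξ =>
    congrArg (fun B : K →L[ℂ] K => B ξ) (hstab n m hnm z)
  -- convergence
  have hconv : ∀ (t : ℝ) (ζ : K), ∃ y, Tendsto (fun m => E (Λ m) (t * Complex.I) ζ) atTop (𝓝 y) := by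
    intro t ζ
    apply cauchySeq_tendsto_of_complete
    rw [Metric.cauchySeq_iff']
    intro ε hε
    obtain ⟨n, hn⟩ := ((hlim ζ).eventually (Metric.ball_mem_nhds ζ (half_pos hε))).exists
    refine ⟨n, fun m hm => ?_⟩
    rw [dist_eq_norm] at hn
    rw [dist_eq_norm]
    have e : E (Λ m) (t * Complex.I) ζ - E (Λ n) (t * Complex.I) ζ =
        E (Λ n) (t * Complex.I) (g n ζ - ζ) - E (Λ m) (t * Complex.I) (g n ζ - ζ) := by
      rw [map_sub, map_sub, hstab' n m hm]
      abel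
    rw [e]
    calc ‖E (Λ n) (t * Complex.I) (g n ζ - ζ) - E (Λ m) (t * Complex.I) (g n ζ - ζ)‖
        ≤ ‖E (Λ n) (t * Complex.I) (g n ζ - ζ)‖ + ‖E (Λ m) (t * Complex.I) (g n ζ - ζ)‖ :=
          norm_sub_le _ _
      _ = ‖g n ζ - ζ‖ + ‖g n ζ - ζ‖ := by rw [E_norm _ (hΛs n), E_norm _ (hΛs m)]
      _ < ε := by linarith
  choose f hf using hconv
  have hfn : ∀ t ζ, ‖f t ζ‖ ≤ ‖ζ‖ := by
    intro t ζ
    refine le_of_tendsto (hf t ζ).norm (Eventually.of_forall fun m => ?_)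
    rw [E_norm _ (hΛs m)]
  let F : ℝ → (K →ₗ[ℂ] K) := fun t =>
    linearMapOfTendsto (f t) (fun m : ℕ => (E (Λ m) (t * Complex.I) : K →ₗ[ℂ] K))
      (tendsto_pi_nhds.mpr fun ζ => hf t ζ)
  have hF : ∀ t ζ, F t ζ = f t ζ := fun t ζ => rfl
  let U : ℝ → (K →L[ℂ] K) := fun t => (F t).mkContinuous 1 (fun ζ => by
    rw [one_mul, hF]; exact hfn t ζ)
  have hU : ∀ t ζ, U t ζ = f t ζ := fun t ζ => rfl
  have hUg : ∀ t n ζ, U t (g n ζ) = E (Λ n) (t * Complex.I) (g n ζ) := by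
    intro t n ζ
    rw [hU]
    refine tendsto_nhds_unique (hf t (g n ζ)) ?_
    refine tendsto_const_nhds.congr' ?_
    filter_upwards [eventually_ge_atTop n] with m hm
    rw [hstab' n m hm]
  -- `T` has dense range
  have hTs : star T = T := sa_star T hRT.tsa
  have hTinj : ∀ ξ, T ξ = 0 → ξ = 0 := by
    intro ξ hξ
    have h1 := hRT.tsq ξ
    rw [hξ, map_zero] at h1
    have h2 : R ((2 : ℂ) • ξ - R ξ) = 0 := by
      rw [map_sub, map_smul]; exact h1.symm
    have h3 := hRT.inj _ h2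
    exact hRT.inj2 ξ (sub_eq_zero.mp h3).symm
  have hdense : ∀ (ζ : K) (ε : ℝ), 0 < ε → ∃ x, ‖T x - ζ‖ < ε := by
    intro ζ ε hε
    have h1 : (LinearMap.range (T : K →ₗ[ℂ] K))ᗮ = ⊥ := by
      rw [Submodule.eq_bot_iff]
      intro x hx
      apply hTinj
      rw [← inner_self_eq_zero (𝕜 := ℂ), hRT.tsa]
      exact (Submodule.mem_orthogonal' _ _).mp hx _ ⟨T x, rfl⟩
    have h2 := Submodule.topologicalClosure_eq_top_iff.mpr h1
    have h3 : ζ ∈ closure (LinearMap.range (T : K →ₗ[ℂ] K) : Set K) := by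
      rw [← Submodule.topologicalClosure_coe, h2]; trivial
    obtain ⟨y, ⟨x, hx⟩, hy⟩ := Metric.mem_closure_iff.mp h3 ε hε
    refine ⟨x, ?_⟩
    have hx' : T x = y := hx
    rw [hx', ← dist_eq_norm, dist_comm]
    exact hy
  refine ⟨U, ?_, fun t ζ => by rw [hU]; exact hfn t ζ, ?_, ?_⟩
  · ext ζ
    rw [hU]
    refine tendsto_nhds_unique (hf 0 ζ) ?_
    refine tendsto_const_nhds.congr fun m => ?_
    rw [Complex.ofReal_zero, zero_mul, E_zero]
  · intro ζ
    refine continuous_of_uniform_approx_of_continuous fun u hu => ?_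
    obtain ⟨ε, hε, hεu⟩ := Metric.mem_uniformity_dist.mp hu
    obtain ⟨n, hn⟩ := ((hlim ζ).eventually (Metric.ball_mem_nhds ζ hε)).exists
    rw [dist_eq_norm] at hn
    refine ⟨fun t => U t (g n ζ), ?_, fun t => ?_⟩
    · simp only [hUg]
      have h1 : Continuous fun t : ℝ => E (Λ n) (t * Complex.I) :=
        (E_diff (Λ n)).continuous.comp (by fun_prop)
      exact h1.clm_apply continuous_const
    · apply hεu
      rw [dist_comm, dist_eq_norm, ← map_sub]
      refine lt_of_le_of_lt ?_ hn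
      rw [hU]; exact hfn t _
  · intro ζ ε hε
    obtain ⟨x, hx⟩ := hdense ζ (ε / 2) (half_pos hε)
    have hlimT : Tendsto (fun n => T (g n x)) atTop (𝓝 (T x)) := (T.continuous.tendsto x).comp (hlim x)
    obtain ⟨n, hn⟩ := (hlimT.eventually (Metric.ball_mem_nhds (T x) (half_pos hε))).exists
    rw [dist_eq_norm] at hn
    have hET : ∀ z, Commute (E (Λ n) z) T := fun z => E_commute _ _ (hΛT n) z
    have hER : ∀ z, Commute (E (Λ n) z) R := fun z => E_commute _ _ (hΛR n) z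
    have hET' : ∀ z ξ, E (Λ n) z (T ξ) = T (E (Λ n) z ξ) := fun z ξ =>
      congrArg (fun B : K →L[ℂ] K => B ξ) (hET z).eq
    have hER' : ∀ z ξ, E (Λ n) z (R ξ) = R (E (Λ n) z ξ) := fun z ξ =>
      congrArg (fun B : K →L[ℂ] K => B ξ) (hER z).eq
    have hadd : ∀ z w ξ, E (Λ n) (z + w) ξ = E (Λ n) z (E (Λ n) w ξ) := fun z w ξ =>
      congrArg (fun B : K →L[ℂ] K => B ξ) (E_add (Λ n) z w)
    have h0 : E (Λ n) 0 (g n x) = g n x := by rw [E_zero]; rfl
    refine ⟨fun z => T (E (Λ n) z (g n x)), fun z => E (Λ n) z (g n x), ?_, ?_, ?_, ?_, ?_, ?_⟩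
    · simp only [h0]
      calc ‖T (g n x) - ζ‖ = ‖(T (g n x) - T x) + (T x - ζ)‖ := by congr 1; abel
        _ ≤ ‖T (g n x) - T x‖ + ‖T x - ζ‖ := norm_add_le _ _
        _ < ε := by linarith
    · exact T.differentiable.comp ((E_diff (Λ n)).clm_apply (differentiable_const _))
    · have e : (fun z : ℂ => (innerSL ℂ (T (E (Λ n) (conj z) (g n x))) : K →L[ℂ] ℂ)) =
          fun z : ℂ => (innerSL ℂ (g n x) : K →L[ℂ] ℂ).comp ((E (Λ n) z).comp T) := by
        funext z
        ext η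
        rw [ContinuousLinearMap.comp_apply, ContinuousLinearMap.comp_apply, innerSL_apply_apply,
          innerSL_apply_apply, hRT.tsa]
        have h1 : E (Λ n) (conj z) = star (E (Λ n) z) := (E_star (Λ n) (hΛs n) z).symm
        rw [h1, ContinuousLinearMap.star_eq_adjoint, ContinuousLinearMap.adjoint_inner_left]
      rw [e]
      exact (differentiable_const _).clm_comp ((E_diff (Λ n)).clm_comp (differentiable_const _))
    · -- boundedness
      have hc : Continuous fun s : ℝ => ‖E (Λ n) (s : ℂ)‖ :=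
        ((E_diff (Λ n)).continuous.comp Complex.continuous_ofReal).norm
      obtain ⟨B, hB⟩ := (isCompact_Icc (a := (-1 : ℝ)) (b := 1)).exists_bound_of_continuousOn
        hc.continuousOn
      refine ⟨‖T‖ * (B * ‖g n x‖), fun z hz => ?_⟩
      have e : z = (z.re : ℂ) + (z.im : ℂ) * Complex.I := (Complex.re_add_im z).symm
      have h1 : ‖E (Λ n) z (g n x)‖ ≤ B * ‖g n x‖ := by
        rw [e, hadd]
        calc ‖E (Λ n) (z.re : ℂ) (E (Λ n) ((z.im : ℂ) * Complex.I) (g n x))‖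
            ≤ ‖E (Λ n) (z.re : ℂ)‖ * ‖E (Λ n) ((z.im : ℂ) * Complex.I) (g n x)‖ :=
              ContinuousLinearMap.le_opNorm _ _
          _ ≤ B * ‖g n x‖ := by
              rw [E_norm _ (hΛs n)]
              apply mul_le_mul_of_nonneg_right _ (norm_nonneg _)
              have := hB z.re (abs_le.mp hz)
              rwa [norm_norm] at this
      exact (T.le_opNorm _).trans (mul_le_mul_of_nonneg_left h1 (norm_nonneg _))
    · intro t
      simp only [h0]
      have e1 : T (g n x) = g n (T x) := (congrArg (fun B : K →L[ℂ] K => B x) (hgT n).eq).symm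
      rw [e1, hUg, ← e1, hET']
    · intro z
      have h1 := hexp n x
      have h2 := hexp' n x
      rw [← E_one] at h1 h2
      refine ⟨rfl, ?_, ?_⟩
      · simp only
        rw [hadd, ← hET', h1, map_sub, map_smul, hER']
      · simp only
        have e : z = (z - 1) + 1 := by ring
        rw [← hET', ← h2, hER', ← hadd, ← e]

end H97R2.BP
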